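import Mathlib
import Pool.Agent.Helper69.BQ.St.E
import Pool.Agent.Helper25.B0
import Pool.Agent.Helper69.BQ.St.A

/-!
# Project BQ, piece E7: `rat_exists`
-/

namespace Pool.Agent.Helper90.BQ

open Module NumberField Pool.Agent.Helper25.Biq Pool.Agent.Helper69.BQ

variable {K : Type} [Field K] [NumberField K] {g12 g13 g23 : ℤ}

/-- Surjectivity of `toQ` onto the classes of elements which generate the square of an ideal. -/
lemma exists_TT' {a : 𝓞 K} {I : Ideal (𝓞 K)} (ha : a ≠ 0) (hI : I ^ 2 = Ideal.span {a}) :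
    ∃ t : TT K, toQ t = (UCl K).mkQ (sc (algebraMap (𝓞 K) K a)) ∧
      ∀ g : K ≃ₐ[ℚ] K, toQ (act g t) = (UCl K).mkQ (sc (g (algebraMap (𝓞 K) K a))) := by
  have hI0 : I ≠ 0 := by
    rintro rfl
    rw [zero_pow two_ne_zero] at hI
    exact ha (Ideal.span_singleton_eq_bot.1 hI.symm)
  have hm : I ∈ nonZeroDivisors (Ideal (𝓞 K)) := mem_nonZeroDivisors_of_ne_zero hI0
  have hm2 : I ^ 2 ∈ nonZeroDivisors (Ideal (𝓞 K)) := pow_mem hm 2
  have h2 : (ClassGroup.mk0 ⟨I, hm⟩) ^ 2 = 1 := by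
    rw [← map_pow]
    have h0 : (⟨I, hm⟩ : nonZeroDivisors (Ideal (𝓞 K))) ^ 2 = ⟨I ^ 2, hm2⟩ :=
      Subtype.ext (SubmonoidClass.coe_pow _ 2)
    rw [h0, ClassGroup.mk0_eq_one_iff]
    exact ⟨⟨a, hI⟩⟩
  refine ⟨TT.mk _ h2, toQ_eq (I := ⟨I, hm⟩) ha hI (TT.val_mk _ h2).symm, fun g => ?_⟩
  exact toQ_act (I := ⟨I, hm⟩) ha hI (TT.val_mk _ h2).symm

omit [NumberField K] in
/-- A natural number whose prime factors generate squares of ideals generates the square
of an ideal. -/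
lemma sqf_ideal {m : ℕ} (hm : m ≠ 0)
    (h : ∀ p : ℕ, p.Prime → p ∣ m → ∃ I : Ideal (𝓞 K), I ^ 2 = Ideal.span {((p : ℕ) : 𝓞 K)}) :
    ∃ I : Ideal (𝓞 K), I ^ 2 = Ideal.span {((m : ℕ) : 𝓞 K)} := by
  induction m using induction_on_primes with
  | zero => exact absurd rfl hm
  | one =>
    refine ⟨1, ?_⟩
    rw [one_pow, Nat.cast_one, Ideal.span_singleton_one, Ideal.one_eq_top]
  | prime_mul p a hp ih =>
    have ha : a ≠ 0 := by
      rintro rfl
      exact hm (mul_zero _)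
    obtain ⟨J, hJ⟩ := ih ha (fun q hq hqa => h q hq (dvd_mul_of_dvd_right hqa p))
    obtain ⟨I, hI⟩ := h p hp (dvd_mul_right p a)
    refine ⟨I * J, ?_⟩
    rw [mul_pow, hI, hJ, Ideal.span_singleton_mul_span_singleton, Nat.cast_mul]

/-- E7 (from E6). The rational classes supported on ramified primes. -/
theorem rat_exists (D : Dat K g12 g13 g23) (hA : Arith g12 g13 g23) {f : ℚ} (hf : f ≠ 0)
    (h : ∀ p : ℕ, p.Prime → ¬ (p : ℤ) ∣ g12 * g13 * g23 → vv p f = 0) :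
    ∃ t : TT K, toQ t = (UCl K).mkQ (sc (algebraMap ℚ K f)) ∧
      ∀ g : K ≃ₐ[ℚ] K, act g t = t := by
  obtain ⟨m, b, hmb, hsq⟩ := Nat.sq_mul_squarefree (f.num * f.den).natAbs
  have hnum : f.num ≠ 0 := Rat.num_ne_zero.2 hf
  have hden : (f.den : ℤ) ≠ 0 := by exact_mod_cast f.den_ne_zero
  have hN : (f.num * f.den).natAbs ≠ 0 := Int.natAbs_ne_zero.2 (mul_ne_zero hnum hden)
  have hm0 : m ≠ 0 := hsq.ne_zero
  have hb0 : b ≠ 0 := by
    rintro rfl
    apply hN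
    rw [← hmb]
    ring
  -- `f` is `± m` times a square
  obtain ⟨ε, hε, hfe⟩ : ∃ ε : ℚ, (ε = 1 ∨ ε = -1) ∧ f = ε * (m : ℚ) * ((b : ℚ) / f.den) ^ 2 := by
    have hd : (f.den : ℚ) ≠ 0 := by exact_mod_cast f.den_ne_zero
    have h1 : f = (f.num : ℚ) / f.den := (Rat.num_div_den f).symm
    have h2 : ((f.num * f.den : ℤ) : ℚ) = ((f.num * f.den).natAbs : ℚ) ∨
        ((f.num * f.den : ℤ) : ℚ) = -((f.num * f.den).natAbs : ℚ) := by
      rcases Int.natAbs_eq (f.num * f.den) with h3 | h3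
      · left
        exact (congrArg (Int.cast : ℤ → ℚ) h3).trans (Int.cast_natCast _)
      · right
        exact_mod_cast h3
    have h4 : (((f.num * f.den).natAbs : ℕ) : ℚ) = (b : ℚ) ^ 2 * m := by
      rw [← hmb]
      push_cast
      ring
    rcases h2 with h2 | h2
    · refine ⟨1, Or.inl rfl, ?_⟩
      rw [h4] at h2
      push_cast at h2
      rw [div_pow, one_mul, mul_div_assoc', mul_comm (m : ℚ), ← h2]
      nth_rewrite 1 [h1]
      field_simp
    · refine ⟨-1, Or.inr rfl, ?_⟩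
      rw [h4] at h2
      push_cast at h2
      have h5 : -1 * (m : ℚ) * ((b : ℚ) / f.den) ^ 2 = (-((b : ℚ) ^ 2 * m)) / (f.den : ℚ) ^ 2 := by
        field_simp
      rw [h5, ← h2]
      nth_rewrite 1 [h1]
      field_simp
  have hd : (f.den : ℚ) ≠ 0 := by exact_mod_cast f.den_ne_zero
  have hbd : ((b : ℚ) / f.den) ≠ 0 := div_ne_zero (by exact_mod_cast hb0) hd
  have hmq : (m : ℚ) ≠ 0 := by exact_mod_cast hm0
  have hε0 : ε ≠ 0 := by rcases hε with rfl | rfl <;> norm_num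
  -- the prime factors of `m`
  have hp : ∀ p : ℕ, p.Prime → p ∣ m →
      ∃ I : Ideal (𝓞 K), I ^ 2 = Ideal.span {((p : ℕ) : 𝓞 K)} := by
    intro p hp hpm
    apply prime_sel D hA hp
    by_contra hcon
    have h1 := h p hp hcon
    have h2 : vv p f = 1 := by
      rw [hfe, vv_mul hp (mul_ne_zero hε0 hmq) (pow_ne_zero 2 hbd), vv_sq hp hbd, add_zero]
      have h3 : vv p ((m : ℤ) : ℚ) = 1 := by
        apply vv_of_dvd hp (Int.natCast_dvd_natCast.2 hpm)
        intro h4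
        have h5 : p ^ 2 ∣ m := by exact_mod_cast h4
        rw [sq] at h5
        exact hp.one_lt.ne' (Nat.isUnit_iff.1 (hsq p h5))
      rw [Int.cast_natCast] at h3
      rcases hε with rfl | rfl
      · rw [one_mul, h3]
      · rw [neg_one_mul, vv_neg, h3]
    rw [h1] at h2
    exact zero_ne_one h2
  obtain ⟨I, hI⟩ := sqf_ideal (K := K) hm0 hp
  have ha : ((m : ℕ) : 𝓞 K) ≠ 0 := by exact_mod_cast hm0
  obtain ⟨t, ht, hact⟩ := exists_TT' ha hI
  have hmK : algebraMap (𝓞 K) K ((m : ℕ) : 𝓞 K) = algebraMap ℚ K (m : ℚ) := by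
    rw [map_natCast, map_natCast]
  rw [hmK] at ht
  refine ⟨t, ?_, fun g => ?_⟩
  · rw [ht, hfe, map_mul, map_mul, map_pow]
    have e1 : algebraMap ℚ K ε ≠ 0 := (map_ne_zero_iff _ (algebraMap ℚ K).injective).2 hε0
    have e2 : algebraMap ℚ K (m : ℚ) ≠ 0 := (map_ne_zero_iff _ (algebraMap ℚ K).injective).2 hmq
    have e3 : algebraMap ℚ K ((b : ℚ) / f.den) ≠ 0 :=
      (map_ne_zero_iff _ (algebraMap ℚ K).injective).2 hbd
    rw [sc_mul (mul_ne_zero e1 e2) (pow_ne_zero 2 e3), sc_mul e1 e2, sc_sq, add_zero, map_add]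
    have e4 : (UCl K).mkQ (sc (algebraMap ℚ K ε)) = 0 := by
      simp only [Submodule.mkQ_apply, Submodule.Quotient.mk_eq_zero]
      rcases hε with rfl | rfl
      · rw [map_one, sc_one]
        exact Submodule.zero_mem _
      · rw [map_neg, map_one]
        exact sc_neg_one_mem
    rw [e4, zero_add]
  · apply toQ_injective
    rw [hact g, hmK, AlgEquiv.commutes, ht]

end Pool.Agent.Helper90.BQ
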